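import Mathlib
import Pool.Agent.Y530.TN.Stm

/-!
# Three bodies, any two joined by a bundle of `n` bars
-/

set_option autoImplicit false

namespace Pool.Agent.Y941.TN.Tri

open Finset Module Pool.Agent.W824.BJ Pool.Agent.Y530.BB Pool.Agent.Y530.TN

theorem pr_swap {k : Type*} [CommRing k] (c d : Fin 6 → k) (X Y : Fin 4 → k) :
    pr (d - c) X Y = - pr (c - d) X Y := by
  simp only [pr, Pi.sub_apply]
  ring

/-- the differences of the screws of two bodies from the screw of a third body -/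
def dif {B : Type} (k : Type*) [Field k] (b0 b1 b2 : B) :
    (B → Fin 6 → k) →ₗ[k] (Fin 2 → Fin 6 → k) where
  toFun n := ![n b1 - n b0, n b2 - n b0]
  map_add' n m := by
    funext i
    fin_cases i <;> simp <;> abel
  map_smul' a n := by
    funext i
    fin_cases i <;> simp [smul_sub]

theorem dif_surj {B : Type} {k : Type*} [Field k] {b0 b1 b2 : B} (h01 : b0 ≠ b1) (h02 : b0 ≠ b2)
    (h12 : b1 ≠ b2) : Function.Surjective (dif k b0 b1 b2) := by
  classical
  intro w
  refine ⟨fun b => if b = b1 then w 0 else if b = b2 then w 1 else 0, ?_⟩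
  funext i
  fin_cases i <;> simp [dif, h01, h02, h12.symm]

theorem ker_iff {B : Type} {k : Type*} [Field k] {b0 b1 b2 : B} (n : B → Fin 6 → k) :
    n ∈ LinearMap.ker (dif k b0 b1 b2) ↔ n b1 = n b0 ∧ n b2 = n b0 := by
  rw [LinearMap.mem_ker]
  constructor
  · intro h
    have h0 := congrFun h 0
    have h1 := congrFun h 1
    exact ⟨sub_eq_zero.1 h0, sub_eq_zero.1 h1⟩
  · rintro ⟨h0, h1⟩
    funext i
    fin_cases i
    · exact sub_eq_zero.2 h0
    · exact sub_eq_zero.2 h1

theorem ker_rank {B : Type} [Fintype B] {k : Type*} [Field k] {b0 b1 b2 : B} (h01 : b0 ≠ b1)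
    (h02 : b0 ≠ b2) (h12 : b1 ≠ b2) :
    finrank k (LinearMap.ker (dif k b0 b1 b2)) + 12 = 6 * Fintype.card B := by
  have h3 := LinearMap.finrank_range_add_finrank_ker (dif k b0 b1 b2)
  rw [LinearMap.range_eq_top.2 (dif_surj h01 h02 h12), finrank_top] at h3
  have hf : ∀ (ι : Type) [Fintype ι], finrank k (ι → Fin 6 → k) = 6 * Fintype.card ι := by
    intro ι _
    rw [Module.finrank_pi_fintype]
    simp [mul_comm]
  have h4 : finrank k (Fin 2 → Fin 6 → k) = 12 := by
    rw [hf (Fin 2)]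
    simp
  have h5 := hf B
  omega

theorem t (n : ℕ) [NeZero n] (h : S_NUM n) : S_TRI n := by
  classical
  obtain ⟨P, hP⟩ := h
  intro V B _ _ β χ b0 b1 b2 F e01 e02 e12 h01 h02 h12 B01 B02 B12 s01 s02 s12 m hm
  obtain ⟨f01, g01, cf01, cg01, bf01, bg01, rfl⟩ := B01
  obtain ⟨f02, g02, cf02, cg02, bf02, bg02, rfl⟩ := B02
  obtain ⟨f12, g12, cf12, cg12, bf12, bg12, rfl⟩ := B12
  let σ1 : Equiv.Perm (Fin n) := Equiv.ofBijective _ (Finite.injective_iff_bijective.1 cg01)
  let σ2 : Equiv.Perm (Fin n) := Equiv.ofBijective _ (Finite.injective_iff_bijective.1 cg02)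
  have e1 : ∀ k, σ1.symm (χ (g01 k)) = k := fun k => σ1.symm_apply_apply k
  have e2 : ∀ k, σ2.symm (χ (g02 k)) = k := fun k => σ2.symm_apply_apply k
  let z : V → Fin 4 → ℚ := fun v => if β v = b0 then P 0 (χ v) else
    if β v = b1 then P 1 (σ1.symm (χ v)) else if β v = b2 then P 2 (σ2.symm (χ v)) else 0
  have z0 : ∀ v, β v = b0 → z v = P 0 (χ v) := fun v hv => by simp only [z]; rw [if_pos hv]
  have z1 : ∀ v, β v = b1 → z v = P 1 (σ1.symm (χ v)) := fun v hv => by
    simp only [z]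
    rw [if_neg (fun h => h01 (h.symm.trans hv)), if_pos hv]
  have z2 : ∀ v, β v = b2 → z v = P 2 (σ2.symm (χ v)) := fun v hv => by
    simp only [z]
    rw [if_neg (fun h => h02 (h.symm.trans hv)), if_neg (fun h => h12 (h.symm.trans hv)),
      if_pos hv]
  set F' : Finset (Sym2 V) := brn f01 g01 ∪ brn f02 g02 ∪ brn f12 g12 with hF'
  have t01 : brn f01 g01 ⊆ F' := fun x hx => by rw [hF']; simp [hx]
  have t02 : brn f02 g02 ⊆ F' := fun x hx => by rw [hF']; simp [hx]
  have t12 : brn f12 g12 ⊆ F' := fun x hx => by rw [hF']; simp [hx]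
  have hFF : F' ⊆ F := by
    rw [hF']
    exact Finset.union_subset (Finset.union_subset s01 s02) s12
  have hle : BM β F' z ≤ LinearMap.ker (dif ℚ b0 b1 b2) := by
    intro q hq
    rw [mem_bm] at hq
    have hF : ∀ {f g : Fin n → V}, brn f g ⊆ F' → ∀ k,
        pr (q (β (f k)) - q (β (g k))) (z (f k)) (z (g k)) = 0 := by
      intro f g hs k
      exact hq _ _ (hs (mem_brn.2 ⟨k, rfl⟩))
    let w : Fin 3 → Fin 6 → ℚ := ![0, q b1 - q b0, q b2 - q b0]
    have hw : w = 0 := by
      refine hP (fun k => σ2.symm (χ (g12 (σ1 k)))) ?_ w rfl ?_ ?_ ?_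
      · exact fun k l hkl => σ1.injective (cg12 (σ2.symm.injective hkl))
      · intro k
        have h1 := hF t01 k
        rw [z0 _ (bf01 k), z1 _ (bg01 k), cf01, e1, bf01, bg01] at h1
        change pr (q b1 - q b0) _ _ = 0
        rw [pr_swap, h1, neg_zero]
      · intro k
        have h1 := hF t02 k
        rw [z0 _ (bf02 k), z2 _ (bg02 k), cf02, e2, bf02, bg02] at h1
        change pr (q b2 - q b0) _ _ = 0
        rw [pr_swap, h1, neg_zero]
      · intro k
        have h1 := hF t12 (σ1 k)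
        rw [z1 _ (bf12 _), z2 _ (bg12 _), cf12, Equiv.symm_apply_apply, bf12, bg12] at h1
        change pr ((q b1 - q b0) - (q b2 - q b0)) _ _ = 0
        rw [sub_sub_sub_cancel_right, h1]
    rw [ker_iff]
    exact ⟨sub_eq_zero.1 (congrFun hw 1), sub_eq_zero.1 (congrFun hw 2)⟩
  have h1 := gb_le β F' z
  have h2 := Submodule.finrank_mono hle
  have h3 := ker_rank (k := ℚ) h01 h02 h12
  have h4 := ker_rank (k := PK V) h01 h02 h12
  -- the other inclusion over the field of the generic placement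
  have hsub : LinearMap.ker (dif (PK V) b0 b1 b2) ≤ GB β F' := by
    intro q hq
    rw [ker_iff] at hq
    have hb : ∀ v, (β v = b0 ∨ β v = b1 ∨ β v = b2) → q (β v) = q b0 := by
      rintro v (hv | hv | hv)
      · rw [hv]
      · rw [hv, hq.1]
      · rw [hv, hq.2]
    have hmem : ∀ {f g : Fin n → V}, (∀ k, β (f k) = b0 ∨ β (f k) = b1 ∨ β (f k) = b2) →
        (∀ k, β (g k) = b0 ∨ β (g k) = b1 ∨ β (g k) = b2) → ∀ u v, s(u, v) ∈ brn f g →
        (β u = b0 ∨ β u = b1 ∨ β u = b2) ∧ (β v = b0 ∨ β v = b1 ∨ β v = b2) := by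
      intro f g hf hg u v huv
      obtain ⟨k, hk⟩ := mem_brn.1 huv
      rw [Sym2.eq_iff] at hk
      rcases hk with ⟨hu, hv⟩ | ⟨hu, hv⟩
      · rw [← hu, ← hv]
        exact ⟨hf k, hg k⟩
      · rw [← hu, ← hv]
        exact ⟨hg k, hf k⟩
    show q ∈ BM β F' (gx V)
    rw [mem_bm]
    intro u v huv
    have huv' : (β u = b0 ∨ β u = b1 ∨ β u = b2) ∧ (β v = b0 ∨ β v = b1 ∨ β v = b2) := by
      rw [hF', Finset.mem_union, Finset.mem_union] at huv
      rcases huv with (huv | huv) | huv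
      · exact hmem (fun k => Or.inl (bf01 k)) (fun k => Or.inr (Or.inl (bg01 k))) u v huv
      · exact hmem (fun k => Or.inl (bf02 k)) (fun k => Or.inr (Or.inr (bg02 k))) u v huv
      · exact hmem (fun k => Or.inr (Or.inl (bf12 k))) (fun k => Or.inr (Or.inr (bg12 k))) u v huv
    rw [hb u huv'.1, hb v huv'.2, sub_self]
    simp [pr]
  have heq : LinearMap.ker (dif (PK V) b0 b1 b2) = GB β F' := by
    apply Submodule.eq_of_le_of_finrank_le hsub
    have h5 : finrank (PK V) (GB β F') = gb β F' := rfl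
    omega
  have hm' : m ∈ GB β F' := BM_anti hFF _ hm
  rw [← heq, ker_iff] at hm'
  exact hm'.1.symm

end Pool.Agent.Y941.TN.Tri
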